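import Pool.Agent.Helper81.LT.Mod

/-!
Packet BTU (MP_c20641_lc).
-/

namespace Pool.Agent.Helper5.LT

open Pool.Agent.Helper81.LT

section

variable {M : Type} [CommSemiring M] [LinearOrder M] [IsStrictOrderedRing M] [PAM M]

theorem rem_aux {q q' d x y : M} (hq : q < q') (hx : x < d) (h : q * d + x = q' * d + y) :
    False := by
  have h1 : q + 1 ≤ q' := PAM.succ_le _ _ hq
  have hd : 0 ≤ d := PAM.zero_le d
  have hy : 0 ≤ y := PAM.zero_le y
  have h2 : (q + 1) * d ≤ q' * d := mul_le_mul_of_nonneg_right h1 hd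
  have h3 : q' * d ≤ q' * d + y := le_add_of_nonneg_right hy
  have h4 : q * d + x < q * d + d := by gcongr
  have h5 : q * d + d = (q + 1) * d := by rw [add_mul, one_mul]
  rw [h5, h] at h4
  exact absurd (lt_of_lt_of_le h4 (h2.trans h3)) (lt_irrefl _)

theorem pr_aux {x y x' y' : M} (hs : x + y < x' + y') (h : pr x y = pr x' y') : False := by
  have h1 : x + y + 1 ≤ x' + y' := PAM.succ_le _ _ hs
  have h0 : (0 : M) ≤ x + y + 1 := PAM.zero_le _
  have h2 : (x + y + 1) * (x + y + 1) ≤ (x' + y') * (x' + y') :=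
    mul_le_mul h1 h1 h0 (PAM.zero_le _)
  have h3 : (x' + y') * (x' + y') ≤ (x' + y') * (x' + y') + x' :=
    le_add_of_nonneg_right (PAM.zero_le _)
  have h4 : (x + y) * (x + y) + x < (x + y + 1) * (x + y + 1) := by
    have h5 : (x + y + 1) * (x + y + 1) = (x + y) * (x + y) + x + (x + y + y + 1) := by ring
    rw [h5]
    have h6 : (0 : M) ≤ x + y + y := PAM.zero_le _
    have h7 : (0 : M) < x + y + y + 1 := lt_of_lt_of_le zero_lt_one (le_add_of_nonneg_left h6)
    exact lt_add_of_pos_right _ h7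
  unfold pr at h
  rw [h] at h4
  exact absurd (lt_of_lt_of_le h4 (h2.trans h3)) (lt_irrefl _)

end

theorem btu : BTU := by
  intro M _ _ _ _
  refine ⟨?_, ?_, ?_⟩
  · rintro a b i x y ⟨hx, q, hq⟩ ⟨hy, q', hq'⟩
    have h : q * (1 + (i + 1) * b) + x = q' * (1 + (i + 1) * b) + y := by rw [← hq, ← hq']
    rcases lt_trichotomy q q' with h1 | h1 | h1
    · exact (rem_aux h1 hx h).elim
    · rw [h1] at h
      exact add_left_cancel h
    · exact (rem_aux h1 hy h.symm).elim
  · intro x y x' y' h
    rcases lt_trichotomy (x + y) (x' + y') with h1 | h1 | h1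
    · exact (pr_aux h1 h).elim
    · unfold pr at h
      rw [h1] at h
      have h2 : x = x' := add_left_cancel h
      rw [h2] at h1
      exact ⟨h2, add_left_cancel h1⟩
    · exact (pr_aux h1 h.symm).elim
  · intro n
    induction n with
    | zero =>
      intro x hx
      rw [Nat.cast_zero] at hx
      exact absurd (PAM.zero_le x) (not_le.2 hx)
    | succ n ih =>
      intro x hx
      rw [Nat.cast_succ] at hx
      rcases lt_trichotomy x (n : M) with h1 | h1 | h1
      · obtain ⟨k, hk, hxk⟩ := ih x h1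
        exact ⟨k, Nat.lt_succ_of_lt hk, hxk⟩
      · exact ⟨n, Nat.lt_succ_self n, h1⟩
      · exact absurd (PAM.succ_le _ _ h1) (not_le.2 hx)

end Pool.Agent.Helper5.LT
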