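import Pool.Agent.Helper81.LT.Comb
import Pool.Agent.Helper98.Ramsey

/-!
Packet INT (MP_c20641_lc).
-/

namespace Pool.Agent.Helper5.LT

open Pool.Agent.Helper81.LT

section

variable {A : Type} {N : ℕ}

theorem fillI_update_in (z : Fin N → A) (p q : ℕ) (a : A) (j : Fin N) (e : A)
    (h : p ≤ j.val ∧ j.val < q) : fillI (Function.update z j e) p q a = fillI z p q a := by
  funext i
  unfold fillI
  by_cases hi : p ≤ i.val ∧ i.val < q
  · rw [if_pos hi, if_pos hi]
  · rw [if_neg hi, if_neg hi, Function.update_of_ne]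
    rintro rfl
    exact hi h

theorem fillI_update_out (z : Fin N → A) (p q : ℕ) (a : A) (j : Fin N) (e : A)
    (h : ¬ (p ≤ j.val ∧ j.val < q)) :
    fillI (Function.update z j e) p q a = Function.update (fillI z p q a) j e := by
  funext i
  by_cases hij : i = j
  · subst hij
    rw [Function.update_self]
    unfold fillI
    rw [if_neg h, Function.update_self]
  · rw [Function.update_of_ne hij]
    unfold fillI
    by_cases hi : p ≤ i.val ∧ i.val < q
    · rw [if_pos hi, if_pos hi]
    · rw [if_neg hi, if_neg hi, Function.update_of_ne hij]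

theorem change {I : Type} (Θ : Setoid (I → A)) (σ₀ : (Fin N → A) → I → A)
    (hind : ∀ (j : Fin N) (x y : Fin N → A) (e : A), x j = y j →
      (Θ (σ₀ x) (σ₀ y) ↔ Θ (σ₀ (Function.update x j e)) (σ₀ (Function.update y j e))))
    (p q : ℕ) (a b : A) (x x' : Fin N → A)
    (h : Θ (σ₀ (fillI x p q a)) (σ₀ (fillI x p q b))) :
    Θ (σ₀ (fillI x' p q a)) (σ₀ (fillI x' p q b)) := by
  classical
  have key : ∀ s : Finset (Fin N),
      Θ (σ₀ (fillI (s.piecewise x' x) p q a)) (σ₀ (fillI (s.piecewise x' x) p q b)) := by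
    intro s
    induction s using Finset.induction_on with
    | empty => simpa using h
    | insert j s hj ih =>
      rw [Finset.piecewise_insert]
      by_cases hc : p ≤ j.val ∧ j.val < q
      · rw [fillI_update_in _ _ _ _ _ _ hc, fillI_update_in _ _ _ _ _ _ hc]
        exact ih
      · rw [fillI_update_out _ _ _ _ _ _ hc, fillI_update_out _ _ _ _ _ _ hc]
        refine (hind j _ _ (x' j) ?_).1 ih
        unfold fillI
        rw [if_neg hc, if_neg hc]
  have := key Finset.univ
  rwa [Finset.piecewise_univ] at this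

/-- the equivalence relation `rho_{pq}` -/
def rho {I : Type} (Θ : Setoid (I → A)) (σ₀ : (Fin N → A) → I → A) (p q : ℕ) : Setoid A where
  r a b := ∀ x : Fin N → A, Θ (σ₀ (fillI x p q a)) (σ₀ (fillI x p q b))
  iseqv := ⟨fun _ _ => Θ.iseqv.refl _, fun h x => Θ.iseqv.symm (h x),
    fun h h' x => Θ.iseqv.trans (h x) (h' x)⟩

end

theorem int (h : IND) : INT := by
  classical
  intro A _ _ M
  obtain ⟨a0⟩ := ‹Nonempty A›
  have : Finite (Setoid A) :=
    Finite.of_injective (fun s : Setoid A => fun a b => s.r a b) (by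
      intro s t hst
      ext a b
      exact iff_of_eq (congrFun (congrFun hst a) b))
  obtain ⟨N, hN⟩ := Pool.Agent.Helper98.Ramsey.ramsey (Setoid A) (M + 1)
  obtain ⟨I, hI, hΘ⟩ := h N A Unit
  refine ⟨I, hI, fun Θ => ?_⟩
  obtain ⟨σ₀, hsub, hind⟩ := hΘ (Setoid.comap Prod.fst Θ)
  have hind' : ∀ (j : Fin N) (x y : Fin N → A) (e : A), x j = y j →
      (Θ (σ₀ x) (σ₀ y) ↔ Θ (σ₀ (Function.update x j e)) (σ₀ (Function.update y j e))) := by
    intro j x y e hxy
    exact hind j x y () () e hxy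
  obtain ⟨f, hf, hfN, ρ, hρ⟩ := hN (fun p q => rho Θ σ₀ p q)
  -- extension of `f`
  obtain ⟨G, hG, hGN, hGρ⟩ : ∃ G : ℕ → ℕ, (∀ i j, i < j → j ≤ M → G i < G j) ∧
      (∀ i, i ≤ M → G i < N) ∧ (∀ i j, i < j → j ≤ M → rho Θ σ₀ (G i) (G j) = ρ) := by
    refine ⟨fun n => if hn : n < M + 1 then f ⟨n, hn⟩ else 0, ?_, ?_, ?_⟩
    · intro i j hij hj
      have h1 : i < M + 1 := by omega
      have h2 : j < M + 1 := by omega
      simp only [h1, h2, dif_pos]
      exact hf (by simpa using hij)
    · intro i hi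
      have h1 : i < M + 1 := by omega
      simp only [h1, dif_pos]
      exact hfN _
    · intro i j hij hj
      have h1 : i < M + 1 := by omega
      have h2 : j < M + 1 := by omega
      simp only [h1, h2, dif_pos]
      exact hρ _ _ (by simpa using hij)
  have hGle : ∀ i j, i ≤ j → j ≤ M → G i ≤ G j := by
    intro i j hij hj
    rcases Nat.eq_or_lt_of_le hij with h | h
    · rw [h]
    · exact (hG i j h hj).le
  have huniq : ∀ (k : ℕ) (i j : Fin M), (G i ≤ k ∧ k < G (i + 1)) → (G j ≤ k ∧ k < G (j + 1)) →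
      i = j := by
    intro k i j hi hj
    by_contra hne
    rcases lt_or_gt_of_ne hne with hlt | hlt
    · have := hGle (i + 1) j (by exact hlt) (by omega)
      omega
    · have := hGle (j + 1) i (by exact hlt) (by omega)
      omega
  have hexists : ∀ (p q k : ℕ), q ≤ M → G p ≤ k → k < G q → p ≤ q →
      ∃ i, p ≤ i ∧ i < q ∧ G i ≤ k ∧ k < G (i + 1) := by
    intro p q k hq hpk hkq hpq
    induction q, hpq using Nat.le_induction with
    | base => omega
    | succ q hpq ih =>
      by_cases hk : k < G q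
      · obtain ⟨i, h1, h2, h3, h4⟩ := ih (by omega) hk
        exact ⟨i, h1, by omega, h3, h4⟩
      · exact ⟨q, hpq, by omega, by omega, hkq⟩
  let E : (Fin M → A) → Fin N → A := fun w k =>
    if h : ∃ i : Fin M, G i ≤ k.val ∧ k.val < G (i + 1) then w h.choose else a0
  have hE1 : ∀ (w : Fin M → A) (k : Fin N) (i : Fin M), (G i ≤ k.val ∧ k.val < G (i + 1)) →
      E w k = w i := by
    intro w k i hi
    have hex : ∃ i : Fin M, G i ≤ k.val ∧ k.val < G (i + 1) := ⟨i, hi⟩
    simp only [E]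
    rw [dif_pos hex, huniq k.val hex.choose i hex.choose_spec hi]
  have hE2 : ∀ (w : Fin M → A) (k : Fin N), (¬ ∃ i : Fin M, G i ≤ k.val ∧ k.val < G (i + 1)) →
      E w k = a0 := by
    intro w k hi
    simp only [E]
    rw [dif_neg hi]
  have hEfill : ∀ (x : Fin M → A) (p q : ℕ) (a : A), p < q → q ≤ M →
      E (fillI x p q a) = fillI (E x) (G p) (G q) a := by
    intro x p q a hpq hq
    funext k
    by_cases hk : G p ≤ k.val ∧ k.val < G q
    · obtain ⟨i, h1, h2, h3, h4⟩ := hexists p q k.val hq hk.1 hk.2 hpq.le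
      rw [hE1 _ k ⟨i, by omega⟩ ⟨h3, h4⟩]
      unfold fillI
      rw [if_pos hk, if_pos ⟨h1, h2⟩]
    · by_cases hex : ∃ i : Fin M, G i ≤ k.val ∧ k.val < G (i + 1)
      · obtain ⟨i, hi⟩ := hex
        rw [hE1 _ k i hi]
        have hnot : ¬ (p ≤ i.val ∧ i.val < q) := by
          intro hc
          apply hk
          have h1 := hGle p i hc.1 (by omega)
          have h2 := hGle (i + 1) q (by omega) hq
          omega
        unfold fillI
        rw [if_neg hnot, if_neg hk, hE1 _ k i hi]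
      · rw [hE2 _ k hex]
        unfold fillI
        rw [if_neg hk, hE2 _ k hex]
  refine ⟨fun w => σ₀ (E w), ρ, ⟨fun k => ?_, fun i => ?_⟩, ?_⟩
  · rcases hsub.1 k with ⟨i, hi⟩ | ⟨c, hc⟩
    · by_cases hex : ∃ l : Fin M, G l ≤ i.val ∧ i.val < G (l + 1)
      · obtain ⟨l, hl⟩ := hex
        exact Or.inl ⟨l, fun w => (hi (E w)).trans (hE1 w i l hl)⟩
      · exact Or.inr ⟨a0, fun w => (hi (E w)).trans (hE2 w i hex)⟩
    · exact Or.inr ⟨c, fun w => hc _⟩
  · obtain ⟨k, hk⟩ := hsub.2 ⟨G i, hGN i (by omega)⟩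
    refine ⟨k, fun w => ?_⟩
    change σ₀ (E w) k = w i
    rw [hk, hE1 w _ i ⟨le_refl _, hG i (i + 1) (by omega) (by omega)⟩]
  · intro p q hpq hq x a b
    change Θ (σ₀ (E (fillI x p q a))) (σ₀ (E (fillI x p q b))) ↔ ρ a b
    rw [hEfill x p q a hpq hq, hEfill x p q b hpq hq, ← hGρ p q hpq hq]
    constructor
    · intro hh x'
      exact change Θ σ₀ hind' (G p) (G q) a b (E x) x' hh
    · intro hh
      exact hh (E x)

end Pool.Agent.Helper5.LT
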