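import Pool.Agent.Helper81.LT.Inc

/-!
Packet QEQ (MP_c20641_lc).
-/

namespace Pool.Agent.Helper5.LT

open Pool.Agent.Helper81.LT
open Nat.Partrec (Code)

theorem pair_mono {a b a' b' : ℕ} (ha : a ≤ a') (hb : b ≤ b') : Nat.pair a b ≤ Nat.pair a' b' := by
  rcases Nat.eq_or_lt_of_le ha with h | h
  · rcases Nat.eq_or_lt_of_le hb with h' | h'
    · rw [h, h']
    · rw [h]
      exact (Nat.pair_lt_pair_right _ h').le
  · rcases Nat.eq_or_lt_of_le hb with h' | h'
    · rw [h']
      exact (Nat.pair_lt_pair_left _ h).le
    · exact ((Nat.pair_lt_pair_left _ h).trans (Nat.pair_lt_pair_right _ h')).le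

theorem encode_le {B : ℕ} : ∀ (k : ℕ) (w : List ℕ), w.length ≤ k → (∀ e ∈ w, e ≤ B) →
    Encodable.encode w ≤ Encodable.encode (List.replicate k B) := by
  intro k
  induction k with
  | zero =>
    intro w hw _
    have : w = [] := List.length_eq_zero_iff.1 (Nat.le_zero.1 hw)
    rw [this]
    simp
  | succ k ih =>
    intro w hw hB
    cases w with
    | nil => simp
    | cons a l =>
      rw [List.replicate_succ, Encodable.encode_list_cons, Encodable.encode_list_cons]
      refine Nat.succ_le_succ (pair_mono ?_ (ih l ?_ ?_))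
      · simpa using hB a (by simp)
      · simpa using hw
      · exact fun e he => hB e (by simp [he])

theorem total : ∀ c : Code, primB c = true → ∃ f : ℕ → ℕ, ∀ n, c.eval n = Part.some (f n) := by
  intro c
  induction c with
  | zero => exact fun _ => ⟨fun _ => 0, fun n => rfl⟩
  | succ => exact fun _ => ⟨fun n => n + 1, fun n => rfl⟩
  | left => exact fun _ => ⟨fun n => n.unpair.1, fun n => rfl⟩
  | right => exact fun _ => ⟨fun n => n.unpair.2, fun n => rfl⟩
  | pair c d ihc ihd =>
    intro h
    rw [primB, Bool.and_eq_true] at h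
    obtain ⟨f, hf⟩ := ihc h.1
    obtain ⟨g, hg⟩ := ihd h.2
    refine ⟨fun n => Nat.pair (f n) (g n), fun n => ?_⟩
    change (Nat.pair <$> c.eval n <*> d.eval n : Part ℕ) = Part.some (Nat.pair (f n) (g n))
    rw [hf, hg]
    simp [Seq.seq]
  | comp c d ihc ihd =>
    intro h
    rw [primB, Bool.and_eq_true] at h
    obtain ⟨f, hf⟩ := ihc h.1
    obtain ⟨g, hg⟩ := ihd h.2
    refine ⟨fun n => f (g n), fun n => ?_⟩
    change (d.eval n >>= c.eval : Part ℕ) = Part.some (f (g n))
    rw [hg]
    simp [hf]
  | prec c d ihc ihd =>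
    intro h
    rw [primB, Bool.and_eq_true] at h
    obtain ⟨f, hf⟩ := ihc h.1
    obtain ⟨g, hg⟩ := ihd h.2
    refine ⟨fun n => Nat.rec (f n.unpair.1)
      (fun y ih => g (Nat.pair n.unpair.1 (Nat.pair y ih))) n.unpair.2, fun n => ?_⟩
    have key : ∀ a k, (Code.prec c d).eval (Nat.pair a k) =
        Part.some (Nat.rec (f a) (fun y ih => g (Nat.pair a (Nat.pair y ih))) k) := by
      intro a k
      induction k with
      | zero => exact (Code.eval_prec_zero c d a).trans (hf a)
      | succ k ih =>
        rw [Code.eval_prec_succ, ih]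
        simp [hg]
    have := key n.unpair.1 n.unpair.2
    rwa [Nat.pair_unpair] at this
  | rfind' c _ =>
    intro h
    exact absurd h (by simp [primB])

theorem Rc_iff {c : Code} {y : ℕ} {w l : List ℕ} {o : ℕ}
    (h : o ∈ Code.evaln y c (Nat.pair (Encodable.encode w) (Encodable.encode l))) :
    Rc c w l ↔ o = 1 := by
  have h1 := Code.evaln_sound h
  have h2 : Code.eval c (Nat.pair (Encodable.encode w) (Encodable.encode l)) = Part.some o :=
    Part.eq_some_iff.2 h1
  rw [Rc, h2]
  constructor
  · intro h3
    exact Part.some_injective h3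
  · rintro rfl
    rfl

theorem grow_mono {X : ℕ → ℕ} {m : ℕ} (h : ∀ i < m, (X i + 2) * (X i + 2) ≤ X (i + 1)) :
    ∀ j ≤ m, ∀ i ≤ j, X i ≤ X j := by
  intro j
  induction j with
  | zero =>
    intro _ i hi
    rw [Nat.le_zero.1 hi]
  | succ j ih =>
    intro hj i hi
    rcases Nat.eq_or_lt_of_le hi with h1 | h1
    · rw [h1]
    · have h2 := ih (by omega) i (by omega)
      have h3 := h j (by omega)
      nlinarith

theorem qeq : QEQ := by
  intro k b
  constructor
  · rintro ⟨X, h0, hgrow, hb, hhom⟩
    -- the list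
    set L : List ℕ := (List.range (2 * k + 2)).map X with hL
    have hLget : ∀ j < 2 * k + 2, L.getD j 0 = X j := by
      intro j hj
      rw [hL, List.getD_eq_getElem?_getD, List.getElem?_map, List.getElem?_range hj]
      rfl
    have hblk : ∀ i ≤ k + 1, blk (fun j => L.getD j 0) i k = blk X i k := by
      intro i hi
      unfold blk
      apply List.map_congr_left
      intro r hr
      rw [List.mem_range] at hr
      exact hLget (i + r) (by omega)
    set U := Encodable.encode (List.replicate k (X (2 * k + 1))) with hU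
    -- computation times
    have hs : ∀ c i u : ℕ, primB (Denumerable.ofNat Code c) = true → ∃ s, ∃ o ∈ Code.evaln s
        (Denumerable.ofNat Code c) (Nat.pair u (Encodable.encode (blk X i k))), True := by
      intro c i u hc
      obtain ⟨f, hf⟩ := total _ hc
      have h1 := hf (Nat.pair u (Encodable.encode (blk X i k)))
      have h2 := Part.eq_some_iff.1 h1
      obtain ⟨s, hs⟩ := Code.evaln_complete.1 h2
      exact ⟨s, _, hs, trivial⟩
    choose! s hs using hs
    set y := U + 1 + ∑ c ∈ Finset.range k, ∑ i ∈ Finset.range (k + 2),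
      ∑ u ∈ Finset.range (U + 1), s c i u with hy
    have hsy : ∀ c < k, ∀ i < k + 2, ∀ u < U + 1, s c i u ≤ y := by
      intro c hc i hi u hu
      have h1 : s c i u ≤ ∑ u ∈ Finset.range (U + 1), s c i u :=
        Finset.single_le_sum (f := fun u => s c i u) (fun _ _ => Nat.zero_le _)
          (Finset.mem_range.2 hu)
      have h2 : ∑ u ∈ Finset.range (U + 1), s c i u ≤
          ∑ i ∈ Finset.range (k + 2), ∑ u ∈ Finset.range (U + 1), s c i u :=
        Finset.single_le_sum (f := fun i => ∑ u ∈ Finset.range (U + 1), s c i u)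
          (fun _ _ => Nat.zero_le _) (Finset.mem_range.2 hi)
      have h3 : ∑ i ∈ Finset.range (k + 2), ∑ u ∈ Finset.range (U + 1), s c i u ≤
          ∑ c ∈ Finset.range k, ∑ i ∈ Finset.range (k + 2),
            ∑ u ∈ Finset.range (U + 1), s c i u :=
        Finset.single_le_sum (f := fun c => ∑ i ∈ Finset.range (k + 2),
          ∑ u ∈ Finset.range (U + 1), s c i u) (fun _ _ => Nat.zero_le _) (Finset.mem_range.2 hc)
      omega
    refine ⟨Encodable.encode L, y, ?_⟩
    unfold QQ
    rw [Denumerable.ofNat_encode]
    refine ⟨?_, ?_, ?_, ?_, ?_⟩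
    · rw [hLget 0 (by omega)]
      exact h0
    · intro i hi
      rw [hLget i (by omega), hLget (i + 1) (by omega)]
      exact hgrow i hi
    · rw [hLget _ (by omega)]
      exact hb
    · rw [hLget _ (by omega), ← hU]
      omega
    · intro c hc hpc i hi u _ hulen huent
      rw [hblk (i + 1) (by omega), hblk (i + 2) (by omega)]
      rw [hLget i (by omega)] at huent
      have hXi : X i ≤ X (2 * k + 1) := grow_mono hgrow (2 * k + 1) le_rfl i (by omega)
      have huU : u < U + 1 := by
        have h1 := encode_le (B := X (2 * k + 1)) k (Denumerable.ofNat (List ℕ) u) hulen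
          (fun e he => (huent e he).le.trans hXi)
        rw [Denumerable.encode_ofNat] at h1
        omega
      obtain ⟨o, ho, -⟩ := hs c (i + 1) u hpc
      obtain ⟨o', ho', -⟩ := hs c (i + 2) u hpc
      have ho2 := Code.evaln_mono (hsy c hc (i + 1) (by omega) u huU) ho
      have ho2' := Code.evaln_mono (hsy c hc (i + 2) (by omega) u huU) ho'
      refine ⟨o, ho2, o', ho2', ?_⟩
      have hh := hhom (Denumerable.ofNat Code c) (by rw [Denumerable.encode_ofNat]; exact hc) hpc i
        hi (Denumerable.ofNat (List ℕ) u) hulen huent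
      have e1 : o ∈ Code.evaln y (Denumerable.ofNat Code c)
          (Nat.pair (Encodable.encode (Denumerable.ofNat (List ℕ) u))
            (Encodable.encode (blk X (i + 1) k))) := by
        rw [Denumerable.encode_ofNat]
        exact ho2
      have e2 : o' ∈ Code.evaln y (Denumerable.ofNat Code c)
          (Nat.pair (Encodable.encode (Denumerable.ofNat (List ℕ) u))
            (Encodable.encode (blk X (i + 2) k))) := by
        rw [Denumerable.encode_ofNat]
        exact ho2'
      rw [← Rc_iff e1, ← Rc_iff e2]
      exact hh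
  · rintro ⟨x, y, h⟩
    unfold QQ at h
    obtain ⟨h0, hgrow, hb, hU, hev⟩ := h
    refine ⟨fun j => (Denumerable.ofNat (List ℕ) x).getD j 0, h0, hgrow, hb, ?_⟩
    intro c hc hpc i hi w hw hent
    have hXi : (Denumerable.ofNat (List ℕ) x).getD i 0 ≤
        (Denumerable.ofNat (List ℕ) x).getD (2 * k + 1) 0 :=
      grow_mono (X := fun j => (Denumerable.ofNat (List ℕ) x).getD j 0) hgrow (2 * k + 1) le_rfl i
        (by omega)
    have hwU : Encodable.encode w < y := lt_of_le_of_lt
      (encode_le k w hw (fun e he => (hent e he).le.trans hXi)) hU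
    obtain ⟨o, ho, o', ho', hoo⟩ := hev (Encodable.encode c) hc
      (by rw [Denumerable.ofNat_encode]; exact hpc) i hi (Encodable.encode w) hwU
      (by rw [Denumerable.ofNat_encode]; exact hw) (by rw [Denumerable.ofNat_encode]; exact hent)
    rw [Denumerable.ofNat_encode] at ho ho'
    rw [Rc_iff ho, Rc_iff ho']
    exact hoo

end Pool.Agent.Helper5.LT
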